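import Pool.Agent.X312.FM.Grp

/-!
# A gap law for motivated, absolutely Hodge and Tate classes on `Y × X ^ n` over the ground field

Let `k` be a finitely generated field of characteristic zero with an embedding in `ℂ`, `ℓ` a
prime, and let `X` and `Y` be **any** smooth projective varieties over `k`. For a variety `Z` over
`k` consider the spaces

`Mot(Z) ⊂ AH(Z) ⊂ Tate(Z) ⊂ ⊕_j H^(2 j)(Z, ℚ_ℓ(j))`

generated by the motivated cycles of André and by the absolute Hodge cycles **defined over** `k`,
and the space of the invariants of the Galois group of `k`. Let `b` be the sum of the Betti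
numbers of `X`. For all `m, n ≥ 1`:

`dim Tate(Y × X ^ n) ≥ dim Mot(Y × X ^ n) + c_m (1 - 4 (m + 3) b ^ (m + 5) log (n + 1) / n) dim
Mot(X ^ n)`,

where `c_m ∈ {0, 1, 2}` **is the number of the strict inclusions among** `Mot ⊂ AH ⊂ Tate` **for**
`Y × X ^ m`. So one Tate class over `k` on `Y × X ^ m` which is not motivated gives at least `(1 -
o(1)) dim Mot(X ^ n)` such classes on `Y × X ^ n`, independent modulo motivated classes, and twice
this number if also one absolute Hodge class on `Y × X ^ m` is not motivated. Nothing is assumed
on `X` and `Y`. For motives in the sense of André or of absolute Hodge cycles the conjecture Q1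
implies that the inclusions (the first one or the second one being left out) are equalities for
all products of powers of `X` and `Y`.

The three families are stable under pull-backs, push-forwards and products with motivated cycles,
and the pairing on the motivated cycles is nondegenerate by the Hodge index theorem (André). The
theorem holds for all chains of families with these properties.

The proof. Identify the classes on `Y × Z` with the homomorphisms `H(Y) → H(Z)`. Two families `N'
⊂ N` of spaces of classes as above are stable under the correspondences in `Mot` from `Z` to `Z'`.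
If they differ for `Y × P`, `P = X ^ m`, one takes an idempotent correspondence `g` on `P` of
minimal rank which does not vanish on `N(Y × P) / N'(Y × P)` and an element `z` of `g N(Y × P)`
which is not in `N'(Y × P)`. A correspondence `x` with `x z ∈ N'(Y × P)` has a nilpotent
compression `g x g`, so the trace of `g x` vanishes; therefore `dim N(Y × Z) / N'(Y × Z)` is at
least the rank of the trace form `(u, v) ↦ tr (g v u)` for all `Z`, and for `Z = X ^ n` this rank
is compared with `dim Mot(X ^ n)` by the log-convexity of the sequence of these dimensions and by
the symmetric group.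
-/

set_option autoImplicit false

open CategoryTheory AlgebraicGeometry

universe u v w

namespace Pool.Agent.Results.MP_bbcdf5_ag.GapLaw

open Pool.Agent.H914 VarClass Obj WeilCohomology
open Pool.Agent.X312.FM (Family IsRingFamily IsModuleFamily IsSubfamily Agree IsNondeg dimOn gapBound)
open Pool.Agent.Y133.Half (pw)

variable {k : Type u} [Field k] {𝒱 : VarClass k} {ops : CycleOps 𝒱}
  {W : WeilCohomology.{u, v} ops}

/-- The sum of the Betti numbers of `X`. -/
noncomputable def totalBetti (W : WeilCohomology.{u, v} ops) (X : 𝒱.Obj) : ℕ :=
  Module.finrank W.K (W.H X)

/-- **The gap law for chains of families of classes.** In the intended use `A 0`, `A 1` and `A i`, `i ≥ 2`,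
are the families of the spaces generated by the motivated cycles, by the absolute Hodge cycles and of the
Tate classes, all of them over the ground field `k`, and `s = 2`. Here `dimOn A Z` is the dimension of
`A Z`, and `pw X m` is the product of `m + 1` copies of `X`. -/
theorem result (A : ℕ → Family W) (hA : IsRingFamily (A 0)) (hA' : ∀ i, IsModuleFamily (A 0) (A i))
    (hle : ∀ i, IsSubfamily (A i) (A (i + 1))) (X Y : 𝒱.Obj) (hX : ∀ n, IsNondeg (A 0) (pw X n))
    (m s n : ℕ) :
    dimOn (A 0) (Y.prod (pw X n)) +
      Set.ncard {i | i < s ∧ ¬ Agree (A i) (A (i + 1)) (Y.prod (pw X m))} *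
        gapBound (totalBetti W X) (dimOn (A 0) (pw X n)) m n ≤
      dimOn (A s) (Y.prod (pw X n)) :=
  Pool.Agent.X312.FM.chain_law hA hA' hle X Y hX m s n

end Pool.Agent.Results.MP_bbcdf5_ag.GapLaw
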