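import Pool.Agent.X292.MU.Main

/-!
# The motivic Tate conjecture for motives with places of maximally unipotent monodromy

Let `M_i` (`i` in a finite set) be polarized motives of odd weight `w` over a number field `F` (for
instance direct factors of the cohomology of degree `w` of smooth projective varieties), with the
`ℓ`-adic realizations `R.ρ ℓ i` of dimension `n i`, alternating polarizations `R.ω ℓ i` and the
similitude character `R.χ ℓ`, the power with exponent `- w` of the cyclotomic character (`IsSystem`).
Fix a prime `ℓ`. Suppose that

* there are three primes `p ≠ ℓ`, unramified in `F`, such that all `M_i` have good reduction at all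
  places above `p` (unramified, with rational Frobenius polynomials independent of `ℓ`, pure of weight
  `w`: theorems of Grothendieck and Deligne);
* for every `i` there is a prime `p ≠ ℓ`, unramified in `F`, such that at each place above `p` the
  motive `M_i` has maximally unipotent monodromy or good reduction, and such that at one of these
  places `v` its monodromy is maximally unipotent and the monodromy of the other `M_j` is not
  maximally unipotent if `n j = n i` (`DistinguishedAt`). Maximally unipotent means that the inertia
  group acts unipotently and that some element `τ` of it has only one Jordan block, with
  `φ τ φ⁻¹ = τ ^ q` for Frobenius elements `φ`;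
* for the `i` with `n i ≥ 4` the Frobenius polynomial of `M_i` at one place of good reduction has
  three multiplicatively independent roots (so `M_i` is not a symmetric power of a motive of rank two).

Theorem. The sum `V` of the `ℓ`-adic realizations is semisimple under all subgroups of finite index
(Grothendieck-Serre conjecture), and every homomorphism `V ^ {⊗ s} (c) → V ^ {⊗ t} (d)` which commutes
with a subgroup of finite index of the Galois group is a linear combination of products of the
polarizations of the summands. The latter are algebraic classes (or at least motivated classes), so
the Tate conjecture (for all tensor constructions on the sum of the `M_i`) follows from the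
algebraicity of the polarizations. In particular all `R.ρ ℓ i` are irreducible under all subgroups of
finite index.

Nothing is assumed about the irreducibility or the Galois image. Examples are motives in families of
Calabi-Yau type with a cusp of maximally unipotent monodromy (hypergeometric motives of symplectic
type), at parameters in `F` which are congruent to the cusp modulo a prime `v_i`.

The proof. Irreducibility (library, `Pool.Agent.Y114.MU.irreducible_of_mum`): the determinant of a
stable subspace is a character with algebraic Frobenius values at the good places; by the `ℓ`-adic six
exponentials theorem its weights at three primes determine those at the place of maximally unipotent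
monodromy, where they are given by the dimension of the subspace. Full monodromy (library,
`Pool.Agent.Y114.MU.sum_tate`): the Lie algebra contains a regular nilpotent element of every summand,
so its components are principal `sl_2` (excluded by the three independent eigenvalues) or symplectic
Lie algebras, which are independent because of `DistinguishedAt`. New in comparison with the starting
result `RegularMonodromy`: no Frobenius torus of maximal rank is needed.
-/

set_option autoImplicit false

namespace Pool.Agent.Results.MP_bbcdf5_ag.MaximallyUnipotentPlaces

open NumberField IsDedekindDomain Polynomial Pool.Agent.Y114.TF Pool.Agent.Y114.GF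
  Pool.Agent.Y114.MU

/-- **The motivic Tate conjecture for sums of motives with places of maximally unipotent
monodromy.** -/
theorem result {F : Type} [Field F] [NumberField F] {ι : Type} [Fintype ι] {n : ι → ℕ}
    -- the realizations
    (R : Realizations n Gal(AlgebraicClosure F/F)) {w : ℕ} (hR : IsSystem R w)
    {ℓ : ℕ} (hℓ : ℓ.Prime)
    -- three primes of good reduction
    (T : Set ℕ) (hT3 : 3 ≤ T.encard) (hT : ∀ p ∈ T, p.Prime ∧ p ≠ ℓ ∧ UnramifiedIn F p)
    (P : HeightOneSpectrum (𝓞 F) → ι → ℚ[X])
    (hgood : ∀ p ∈ T, ∀ v, Above v p → GoodAt R w v (P v))
    -- maximally unipotent monodromy
    (hmum : ∀ i, ∃ p, p.Prime ∧ p ≠ ℓ ∧ UnramifiedIn F p ∧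
      (∃ v, Above v p ∧ MaxUnipotentAt R i v ∧ DistinguishedAt R i v) ∧
      ∀ v, Above v p → MaxUnipotentAt R i v ∨ GoodFor R w i v)
    -- three independent Frobenius eigenvalues
    (hind : ∀ i, 4 ≤ n i → ∃ (v : HeightOneSpectrum (𝓞 F)) (f : ι → ℚ[X]), ¬ Above v ℓ ∧
      GoodAt R w v f ∧ ThreeIndependent (f i)) : R.TateAt ℓ :=
  Pool.Agent.X292.MU.tate_of_mum R hR P hℓ T hT3 hT hgood hmum hind

end Pool.Agent.Results.MP_bbcdf5_ag.MaximallyUnipotentPlaces
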