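import Pool.Agent.X227.UP.Exact
import Pool.Agent.X227.UP.Slim

/-!
# The motivic Tate conjecture over the ground field: one finite set of factors for all motives

Let `k` be a finitely generated field of characteristic zero, `𝒱` a class of smooth projective
varieties over `k` closed under products, and `W` the étale cohomology of these varieties over an
algebraic closure of `k`, with coefficients in an algebraic closure of `ℚ_ℓ`, with the action of the
Galois group `Γ` of `k` (`GaloisData`; `G.χ` is the action on the Tate twists). The cycles are cycles
on the varieties over `k`, so `Γ` acts on the class of a cycle of codimension `j` by `χ ^ j`
(`FixesCycles`). The closed points of the varieties may have degree greater than one over `k`;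
the cycle class map is normalized such that the class of a closed point has degree one (the usual class
divided by the degree of the point), and this does not change the spaces of algebraic classes with
rational coefficients. The motivated classes (André), with coefficients in `W.K`, are the smallest system of
classes which contains the algebraic classes and is closed under linear combinations, products,
pull-backs, push-forwards and the inverses of the Lefschetz isomorphisms (`IsMotivated`).

A motive over `k` is a pair `M = (Y, e)` of a variety `Y` and a motivated class `e` of degree
`2 dim Y` on `Y × Y` whose operator is idempotent (`Motive`). For a product `P` of varieties `X i`, `i`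
in the list `L` (`prodList X Y L` is `P × Y`), the motive `h(P) ⊗ M` is `(P × Y, 1 × e)`, and `timesE X e L`
is the operator of the correspondence `1 × e` on `H(P × Y)`. `MotTateOver` says that all classes of
degree `2 j` on `P × Y` on which the WHOLE group `Γ` acts by `χ ^ j` and which are fixed by `1 × e`, that
is all Galois invariants in the Tate twists of `h(P) ⊗ M`, are motivated: they are linear combinations
of morphisms of motives over `k`. The equality `G_{ℓ,k}(M) = 𝒢_k(M)` of the ℓ-adic monodromy group and
the motivic Galois group over `k` is, for motives with semisimple Galois representation, equivalent to
this statement for all tensor constructions of the motive. (The usual version with Tate classes, on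
which a subgroup of finite index acts by `χ ^ j`, is the one for the identity components.)

Let `X i` be any family of varieties over `k`, which may be infinite: `X i` is odd-dimensional,
homological and numerical equivalence coincide on `X i`, the transcendental cohomology `T i` (the
orthogonal complement of all algebraic classes) is in the middle degree (`OddMiddle`), the group `Γ`
acts irreducibly on the Lie algebra `sp(T i)` of the operators on `T i` which are skew for the
intersection form, some element of `Γ` has two eigenvalues on `T i` whose quotient is not a root of
unity, and these adjoint representations are pairwise not isomorphic (`BigFamily`). Let `Z` be ANY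
variety over `k`; nothing is supposed about its Galois representation.

The motives `(Z^(n+1), e)`, for all `n` and all `e`, give up to Tate twists and finite direct sums all
motives in the tannakian category `⟨h(Z)⟩` over `k`. The theorem: there is ONE finite set `B` of indices
such that for ALL `n` and ALL motives `M = (Z^(n+1), e)` and all products `P` of powers of the `X i` the
motivic Tate conjecture over `k` for `h(P) ⊗ M` is equivalent to the conjecture for `h(P') ⊗ M` for the
subproducts `P'` of `P` with `i ∈ B` such that for some degree `m` of the right parity the product of
the numbers (exponent of `X i`) + 1 and the sum of the `dim T i`, over the `i` which occur, are at most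
the Betti number `b_m(Z^(n+1))` (`SmallDim`). So for the tannakian category generated by `Z` and all the
infinitely many `X i` the statement is a question about `Z` and the `X i` with `i ∈ B`.

The set `B` is bounded: `∑_{i ∈ B} dim sp(T i) ≤ b ^ 2` where `b` is the dimension of any sum of
cohomology groups `H^m(Z)`, `m ∈ S`, which generates the cohomology algebra of `Z` (`GenBound`); in
particular `b = dim H(Z)` is possible for all `Z`, and `b = 2 dim A` if `Z = A` is an abelian variety. No
`i ∈ B` is separated from `Z` by the eigenvalues of an element of `Γ` (`Apart`); so if all `X i` are
separated from `Z`, the statements for `h(P) ⊗ M` and for `M` are equivalent.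

The idea of the proof: if the factor `X i` matters for some power of `Z` then `sp(T i)` acts by
derivations of `H(Z^(n+1))` which can be chosen to commute with all endomorphisms of `Z^(n+1)`, in
particular with the permutations of the factors; so they are determined by their restriction to the
generators of the cohomology of one factor `Z`, and these restrictions are linearly independent for
the different `i`.
-/

open CategoryTheory AlgebraicGeometry

universe u

namespace Pool.Agent.Results.MP_bbcdf5_ag.OverTheGroundField

open Pool.Agent.H914 Pool.Agent.H914.VarClass Pool.Agent.H914.VarClass.Obj Pool.Agent.Y132.AH
  Pool.Agent.X227.NP Pool.Agent.X227.UP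

variable {k : Type u} [Field k] {𝒱 : VarClass k} {ops : CycleOps 𝒱}

theorem result (W : WeilCohomology.{u, 0} ops) [IsAlgClosed W.K] {Γ : Type} [Group Γ]
    (G : GaloisData W Γ) (hcyc : FixesCycles G) {ι : Type} [DecidableEq ι] (X : ι → 𝒱.Obj)
    (hX : ∀ i, OddMiddle W (X i)) (hG : BigFamily G X) (Z : 𝒱.Obj) :
    ∃ B : Finset ι, GenBound W X Z B ∧ (∀ i ∈ B, ¬Apart G (X i) Z) ∧
      ∀ (n : ℕ) (e : W.H ((powN Z n).prod (powN Z n))), Motive (powN Z n) e →
        ∀ L : List ι, MotTateOver G (prodList X (powN Z n) L) (timesE X e L) ↔
          ∀ L' : List ι, L'.Sublist L → SmallDim W X (powN Z n) B L' →
            MotTateOver G (prodList X (powN Z n) L') (timesE X e L') :=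
  over_gen hcyc Z hX hG

end Pool.Agent.Results.MP_bbcdf5_ag.OverTheGroundField
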