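import Pool.Agent.X227.NP.MTate

/-!
# The motivic Tate conjecture for `h(P) ⊗ M`, `P` a product of powers of varieties of symplectic type

Let `k` be a finitely generated field of characteristic zero and `W` the étale cohomology of the smooth
projective varieties over an algebraic closure of `k`, with coefficients in an algebraic closure of
`ℚ_ℓ`, with the action of the Galois group `Γ` (`GaloisData`; `G.χ` is the action on the Tate
twists). Tate classes of degree `2 j` are the classes on which a subgroup of finite index acts by
`χ ^ j`. The motivated classes (André), with coefficients in `W.K`, are the smallest system of classes
which contains the algebraic classes and is closed under linear combinations, products, pull-backs,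
push-forwards and the inverses of the Lefschetz isomorphisms (`IsMotivated`).

A motive is a pair `M = (Z, e)` of a variety `Z` and a motivated class `e` of degree `2 dim Z` on
`Z × Z` whose operator `baseOp e : y ↦ pr_2_* (e * pr_1^* y)` is idempotent (`Motive`). For a
product `P` of varieties `X i`, `i` in the list `L` (`prodList X Z L` is `P × Z`), the motive
`h(P) ⊗ M` is `(P × Z, 1 × e)`, and `overOp X e L` is the operator of the correspondence `1 × e` on
`H(P × Z)`. `MotTate` says that all Tate classes on `P × Z` which are fixed by `1 × e`, that is all
Tate classes in the Tate twists of `h(P) ⊗ M`, are motivated: the Galois invariants in the ℓ-adic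
realisation are spanned by the morphisms of motives. For a motive with semisimple Galois
representation the equality of the ℓ-adic monodromy group and of the motivic Galois group is
equivalent to this statement for all tensor constructions of the motive.

Let `X i` be any family of varieties, which may be infinite: `X i` is odd-dimensional, homological and
numerical equivalence coincide on `X i`, the transcendental cohomology `T i` (the orthogonal
complement of all algebraic classes) is in the middle degree (`OddMiddle`), the group `Γ` acts
irreducibly on the Lie algebra of the operators on `T i` which are skew for the intersection form,
some element of `Γ` has two eigenvalues on `T i` whose quotient is not a root of unity, and these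
adjoint representations are pairwise not isomorphic (`BigFamily`). Examples: curves, hypersurfaces
and complete intersections of odd dimension with large Galois image. Let `Z` be ANY variety; nothing
is supposed about its Galois representation.

(1) There is a finite set `B` of indices with `∑ dim T i ≤ dim H(Z)`, none of them separated from `Z`
by the group, such that for EVERY direct summand `M` of `h(Z)` and all products `P` of powers of the
`X i`: `MotTate` holds for `h(P) ⊗ M` if and only if it holds for `h(P') ⊗ M` for the subproducts `P'` of
`P` with `i ∈ B` such that for some degree `m` of the right parity the product of the numbers
(exponent of `X i`) + 1 and the sum of the `dim T i`, over the `i` which occur, are at most the Betti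
number `b_m(Z)` (`SmallDim`). So for given `M` finitely many products decide for infinitely many.

(2) If all `X i` are separated from `Z` (`MonApart`: for some element `g` of `Γ` with two eigenvalues
`a` and `b` on `T i`, the cohomology of `Z` is generated by stable pieces on which `a b / χ(g) ^ n`,
`n = dim X i`, is not the quotient of two eigenvalues of `g`), then for every direct summand `M` of
`h(Z ^ (n + 1))`, for instance for all tensor constructions of the direct summands of `h(Z)`, the
statement for `h(P) ⊗ M` is equivalent to the statement for `M`, for all `P`. So the motivic Tate
conjecture for `M`, for classes on all tensor constructions, implies the one for `h(P) ⊕ M`. The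
assumption is satisfied if `g` is a Frobenius element such that the slopes of `g` on the pieces
of `H(Z)` differ by less than `2 ν(a) - n` (for abelian varieties and products of curves `Z` and
`2 ν(a) > n + 1` for instance), and also if the quotients of the eigenvalues of `g` on the pieces of
`H(Z)` are in a field or in a group of numbers which does not contain `a b / χ(g) ^ n`.

The idea of the proof: let `F` be a Tate class fixed by `1 × e`. Its components in the tensor factors
`T i` are functions with values in `H(Z)`. The contraction of two factors by the intersection form
is given by algebraic correspondences which commute with `1 × e`. So by induction the contractions of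
a minimal counterexample are motivated and can be subtracted, and it can be supposed traceless; and
the traceless parts of the tensor powers of the `T i`, on which `Γ` acts through a large symplectic
group, occur in a twist of `H(Z)`, which gives the bounds.
-/

open CategoryTheory AlgebraicGeometry

universe u

namespace Pool.Agent.Results.MP_bbcdf5_ag.TimesSymplecticType

open Pool.Agent.H914 Pool.Agent.H914.VarClass Pool.Agent.H914.VarClass.Obj Pool.Agent.Y132.AH
  Pool.Agent.X227.NP

variable {k : Type u} [Field k] {𝒱 : VarClass k} {ops : CycleOps 𝒱}

theorem result (W : WeilCohomology.{u, 0} ops) [IsAlgClosed W.K] {Γ : Type} [Group Γ]
    (G : GaloisData W Γ) {ι : Type} [DecidableEq ι] (X : ι → 𝒱.Obj)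
    (hX : ∀ i, OddMiddle W (X i)) (hG : BigFamily G X) (Z : 𝒱.Obj) :
    (∃ B : Finset ι, ∑ i ∈ B, trDim W (X i) ≤ totDim W Z ∧ (∀ i ∈ B, ¬MonApart G (X i) Z) ∧
      ∀ e : W.H (Z.prod Z), Motive Z e → ∀ L : List ι,
        (MotTate G (prodList X Z L) (overOp X e L) ↔
          ∀ L' : List ι, L'.Sublist L → SmallDim W X Z B L' →
            MotTate G (prodList X Z L') (overOp X e L'))) ∧
    ((∀ i, MonApart G (X i) Z) → ∀ (n : ℕ) (e : W.H ((powN Z n).prod (powN Z n))),
      Motive (powN Z n) e → ∀ L : List ι,
        (MotTate G (prodList X (powN Z n) L) (overOp X e L) ↔
          MotTate G (powN Z n) (baseOp e))) :=
  ⟨mt_general G Z hX hG, fun h n e he L => mt_separated G Z hX hG h n e he L⟩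

end Pool.Agent.Results.MP_bbcdf5_ag.TimesSymplecticType
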